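import Pool.Agent.Y223.G.Stm2

/-!
# The iterates of `σ - 1` and the weighted filtration
-/

set_option autoImplicit false

namespace Pool.Agent.Y438.G

open Pool.Agent.Y223.G

section fi

variable {B : Type} [CommRing B] {ι : Type} [Fintype ι] {x : ι → B} {a : ι → ℕ}

lemma FI_mono {m n : ℕ} (h : m ≤ n) : FI x a n ≤ FI x a m := by
  unfold FI
  apply Ideal.span_mono
  rintro y ⟨e, he, rfl⟩
  exact ⟨e, h.trans he, rfl⟩

lemma FI_zero : FI x a 0 = ⊤ := by
  rw [Ideal.eq_top_iff_one]
  exact Ideal.subset_span ⟨0, Nat.zero_le _, by simp⟩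

lemma FI_mul {m n : ℕ} {y z : B} (hy : y ∈ FI x a m) (hz : z ∈ FI x a n) :
    y * z ∈ FI x a (m + n) := by
  have h : FI x a m * FI x a n ≤ FI x a (m + n) := by
    unfold FI
    rw [Ideal.span_mul_span']
    apply Ideal.span_mono
    rintro _ ⟨y, ⟨e, he, rfl⟩, z, ⟨f, hf, rfl⟩, rfl⟩
    refine ⟨e + f, ?_, ?_⟩
    · simp only [Pi.add_apply, mul_add, Finset.sum_add_distrib]
      omega
    · simp only [Pi.add_apply, pow_add, Finset.prod_mul_distrib]
  exact h (Ideal.mul_mem_mul hy hz)

lemma FI_gen (i : ι) : x i ∈ FI x a (a i) := by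
  classical
  refine Ideal.subset_span ⟨Pi.single i 1, ?_, ?_⟩
  · rw [Finset.sum_eq_single i]
    · simp
    · intro j _ hj
      simp [Pi.single_eq_of_ne hj]
    · intro h
      exact absurd (Finset.mem_univ i) h
  · rw [Finset.prod_eq_single i]
    · simp
    · intro j _ hj
      simp [Pi.single_eq_of_ne hj]
    · intro h
      exact absurd (Finset.mem_univ i) h

lemma FI_pow {n m : ℕ} {y : B} (hy : y ∈ FI x a n) : y ^ m ∈ FI x a (n * m) := by
  induction m with
  | zero =>
    rw [Nat.mul_zero, FI_zero]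
    trivial
  | succ m ih =>
    rw [pow_succ, Nat.mul_succ]
    exact FI_mul ih hy

end fi

section df

variable {B : Type} [CommRing B] (σ : B →+* B)

lemma df_mul (x y : B) : df σ (x * y) = df σ x * y + x * df σ y + df σ x * df σ y := by
  unfold df
  rw [map_mul]
  ring

lemma df_add (x y : B) : df σ (x + y) = df σ x + df σ y := by
  unfold df
  rw [map_add]
  ring

lemma df_one : df σ (1 : B) = 0 := by
  unfold df
  rw [map_one, sub_self]

lemma df_zero : df σ (0 : B) = 0 := by
  unfold df
  rw [map_zero, sub_self]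

/-- the binomial formula -/
lemma df_iter (p : ℕ) (x : B) :
    σ^[p] x = ∑ m ∈ Finset.range (p + 1), (p.choose m : B) * (df σ)^[m] x := by
  let S : Module.End ℤ B := σ.toAddMonoidHom.toIntLinearMap
  let D : Module.End ℤ B := S - 1
  have hS : ∀ y, S y = σ y := fun y => rfl
  have hD : ∀ y, D y = df σ y := fun y => rfl
  have h1 : ∀ (m : ℕ) (y : B), (D ^ m) y = (df σ)^[m] y := by
    intro m
    induction m with
    | zero => intro y; rfl
    | succ m ih =>
      intro y
      rw [pow_succ, Module.End.mul_apply, ih, hD, Function.iterate_succ_apply]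
  have h2 : ∀ (m : ℕ) (y : B), (S ^ m) y = σ^[m] y := by
    intro m
    induction m with
    | zero => intro y; rfl
    | succ m ih =>
      intro y
      rw [pow_succ, Module.End.mul_apply, ih, hS, Function.iterate_succ_apply]
  have h3 : S = D + 1 := by simp [D]
  have h4 := (Commute.one_right D).add_pow p
  rw [← h3] at h4
  rw [← h2, h4, LinearMap.sum_apply]
  refine Finset.sum_congr rfl fun m _ => ?_
  rw [one_pow, mul_one, ← h1]
  rw [← Nat.cast_commute, ← nsmul_eq_mul, LinearMap.smul_apply, nsmul_eq_mul]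

end df

lemma wt_step {l a : ℕ} (ha : 1 ≤ a) : wt l a + l ≤ wt l (a + 1) := by
  unfold wt
  split_ifs with h
  · subst h
    omega
  · rw [Nat.succ_mul]

lemma wt_ge {l a : ℕ} (ha : 1 ≤ a) : max l 1 ≤ wt l a := by
  unfold wt
  split_ifs with h
  · subst h
    omega
  · have : l ≤ a * l := Nat.le_mul_of_pos_left l ha
    omega

theorem t_TAY : S_TAY := by
  intro B _ σ p l r π u hp hσ hπ hpp hdf
  obtain ⟨c, hc⟩ := hπ
  obtain ⟨d, hd⟩ := hpp
  set X := wx σ p π u with hX
  set A := wv l r p with hA
  -- the generators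
  have hπ1 : π ∈ FI X A 1 := FI_gen (x := X) (a := A) none
  have hπm : ∀ m, π ^ m ∈ FI X A m := fun m => by
    have := FI_pow (m := m) hπ1
    rwa [one_mul] at this
  have hu : ∀ (j : Fin r) (a : ℕ), 1 ≤ a → a < p → (df σ)^[a] (u j) ∈ FI X A (wt l a) := by
    intro j a h1 h2
    obtain ⟨b, rfl⟩ : ∃ b, a = b + 1 := ⟨a - 1, by omega⟩
    exact FI_gen (x := X) (a := A) (some (j, ⟨b, by omega⟩))
  have hx : ∀ x, df σ x ∈ FI X A (max l 1) := by
    intro x
    have h1 : Ideal.span ({π ^ (max l 1)} ∪
        {y | ∃ j a, 1 ≤ a ∧ a < p ∧ y = (df σ)^[a] (u j)}) ≤ FI X A (max l 1) := by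
      rw [Ideal.span_le]
      rintro y (hy | ⟨j, a, h1, h2, rfl⟩)
      · rw [Set.mem_singleton_iff.1 hy]
        exact hπm _
      · exact FI_mono (wt_ge h1) (hu j a h1 h2)
    exact h1 (hdf x)
  have hxl : ∀ x, df σ x ∈ FI X A l := fun x => FI_mono (le_max_left _ _) (hx x)
  -- pairs
  have hpair : ∀ (x y : B) (m n : ℕ), x ∈ FI X A m → df σ x ∈ FI X A (m + l) → y ∈ FI X A n →
      df σ y ∈ FI X A (n + l) → x * y ∈ FI X A (m + n) ∧ df σ (x * y) ∈ FI X A (m + n + l) := by
    intro x y m n h1 h2 h3 h4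
    refine ⟨FI_mul h1 h3, ?_⟩
    rw [df_mul]
    refine Ideal.add_mem _ (Ideal.add_mem _ ?_ ?_) ?_
    · have := FI_mul h2 h3
      rwa [show m + l + n = m + n + l by ring] at this
    · have := FI_mul h1 h4
      rwa [show m + (n + l) = m + n + l by ring] at this
    · exact FI_mono (by omega) (FI_mul h2 h4)
  -- generators
  have hgen : ∀ i, df σ (X i) ∈ FI X A (A i + l) := by
    rintro (_ | ⟨j, b⟩)
    · show σ π - π ∈ FI X A (1 + l)
      rw [hc, add_comm 1 l]
      exact Ideal.mul_mem_right _ _ (hπm _)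
    · show df σ ((df σ)^[(b : ℕ) + 1] (u j)) ∈ FI X A (wt l (b + 1) + l)
      rw [← Function.iterate_succ_apply' (df σ)]
      rcases Nat.lt_or_ge ((b : ℕ) + 1 + 1) p with hb | hb
      · exact FI_mono (wt_step (by omega)) (hu j _ (by omega) hb)
      · have hbp : (b : ℕ) + 1 + 1 = p := by
          have := b.2
          omega
        obtain ⟨q, rfl⟩ : ∃ q, p = q + 1 := ⟨(b : ℕ) + 1, hbp.symm⟩
        have hbq : (b : ℕ) + 1 = q := by omega
        rw [hbq]
        have h1 := df_iter σ (q + 1) (u j)
        rw [hσ, Finset.sum_range_succ, Finset.sum_range_succ'] at h1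
        simp only [Nat.choose_self, Nat.choose_zero_right, Nat.cast_one, one_mul,
          Function.iterate_zero, id_eq] at h1
        have h2 : (df σ)^[q + 1] (u j) = -∑ k ∈ Finset.range q,
            ((q + 1).choose (k + 1) : B) * (df σ)^[k + 1] (u j) := by
          linear_combination -h1
        rw [Nat.succ_eq_add_one, h2]
        refine neg_mem (sum_mem fun k hk => ?_)
        have hk' := Finset.mem_range.1 hk
        obtain ⟨e, he⟩ := hp.dvd_choose_self (Nat.succ_ne_zero k) (show k + 1 < q + 1 by omega)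
        have h3 : ((q + 1).choose (k + 1) : B) * (df σ)^[k + 1] (u j) =
            (π ^ ((q + 1 - 1) * l) * (df σ)^[k + 1] (u j)) * (d * (e : B)) := by
          have h4 : ((q + 1).choose (k + 1) : B) = (((q + 1 : ℕ) : B)) * (e : B) := by
            rw [← Nat.cast_mul, ← he]
          rw [h4, hd]
          ring
        rw [h3]
        refine Ideal.mul_mem_right _ _ (FI_mono ?_ (FI_mul (hπm _) (hu j (k + 1) (by omega)
          (by omega))))
        unfold wt
        split_ifs with hl
        · subst hl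
          omega
        · rw [Nat.add_sub_cancel]
          nlinarith
  -- monomials
  have hpow : ∀ i m, X i ^ m ∈ FI X A (A i * m) ∧ df σ (X i ^ m) ∈ FI X A (A i * m + l) := by
    intro i m
    induction m with
    | zero =>
      rw [pow_zero, Nat.mul_zero, FI_zero, df_one]
      exact ⟨trivial, Ideal.zero_mem _⟩
    | succ m ih =>
      rw [pow_succ, Nat.mul_succ]
      exact hpair _ _ _ _ ih.1 ih.2 (FI_gen (x := X) (a := A) i) (hgen i)
  have hprod : ∀ (m : WI r p → ℕ) (s : Finset (WI r p)),
      ∏ i ∈ s, X i ^ m i ∈ FI X A (∑ i ∈ s, A i * m i) ∧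
      df σ (∏ i ∈ s, X i ^ m i) ∈ FI X A (∑ i ∈ s, A i * m i + l) := by
    classical
    intro m s
    induction s using Finset.induction_on with
    | empty =>
      rw [Finset.prod_empty, Finset.sum_empty, FI_zero, df_one]
      exact ⟨trivial, Ideal.zero_mem _⟩
    | insert i s hi ih =>
      rw [Finset.prod_insert hi, Finset.sum_insert hi]
      exact hpair _ _ _ _ (hpow i (m i)).1 (hpow i (m i)).2 ih.1 ih.2
  -- the filtration
  have hfil : ∀ n x, x ∈ FI X A n → df σ x ∈ FI X A (n + l) := by
    intro n x hx'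
    have key : x ∈ FI X A n ∧ df σ x ∈ FI X A (n + l) := by
      have hx2 : x ∈ Ideal.span {y | ∃ m : WI r p → ℕ, n ≤ ∑ i, A i * m i ∧
        y = ∏ i, X i ^ m i} := hx'
      refine Submodule.span_induction (p := fun x _ => x ∈ FI X A n ∧ df σ x ∈ FI X A (n + l))
        ?_ ?_ ?_ ?_ hx2
      · rintro y ⟨m, hm, rfl⟩
        have := hprod m Finset.univ
        exact ⟨FI_mono hm this.1, FI_mono (by omega) this.2⟩
      · rw [df_zero]
        exact ⟨Ideal.zero_mem _, Ideal.zero_mem _⟩
      · rintro y z _ _ ⟨h1, h2⟩ ⟨h3, h4⟩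
        rw [df_add]
        exact ⟨Ideal.add_mem _ h1 h3, Ideal.add_mem _ h2 h4⟩
      · rintro e y _ ⟨h1, h2⟩
        rw [smul_eq_mul]
        have h0 : e ∈ FI X A 0 := by
          rw [FI_zero]
          trivial
        have h5 := hpair e y 0 n h0 (by rw [zero_add]; exact hxl e) h1 h2
        rwa [zero_add] at h5
    exact key.2
  -- the iterates
  intro a _ x
  rcases Nat.eq_zero_or_pos l with hl | hl
  · subst hl
    rcases Nat.eq_zero_or_pos a with ha | ha
    · subst ha
      have : wt 0 0 = 0 := rfl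
      rw [this, FI_zero]
      trivial
    · have hw : wt 0 a = 1 := by
        unfold wt
        rw [if_pos rfl]
        omega
      rw [hw]
      obtain ⟨b, rfl⟩ : ∃ b, a = b + 1 := ⟨a - 1, by omega⟩
      clear hw ha
      induction b with
      | zero =>
        exact hx x
      | succ b ih =>
        rw [Function.iterate_succ_apply']
        exact hfil 1 _ (ih (by omega))
  · have hw : wt l a = a * l := by
      unfold wt
      rw [if_neg (by omega)]
    rw [hw]
    clear hw
    induction a with
    | zero =>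
      rw [Nat.zero_mul, FI_zero]
      trivial
    | succ a ih =>
      rw [Function.iterate_succ_apply', Nat.succ_mul]
      exact hfil _ _ (ih (by omega))

end Pool.Agent.Y438.G
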